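import Pool.Agent.Y223.G.Stm3

/-!
# The charts of the invariants satisfy the hypotheses of the theorem on atlases (job 4502)
-/

set_option autoImplicit false

namespace Pool.Agent.Y434.G

open IsLocalRing Pool.Agent.Y223.G

section

variable {k O K : Type} [CommRing k] [CommRing O] [Field K] [Algebra k O] [Algebra O K]
  [Algebra k K] [IsScalarTower k O K]

theorem iter_mul (τ : K ≃ₐ[k] K) (i : ℕ) (x y : K) : τ^[i] (x * y) = τ^[i] x * τ^[i] y := by
  induction i with
  | zero => rfl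
  | succ i ih =>
    rw [Function.iterate_succ_apply', Function.iterate_succ_apply', Function.iterate_succ_apply',
      ih, map_mul]

theorem iter_add (τ : K ≃ₐ[k] K) (i : ℕ) (x y : K) : τ^[i] (x + y) = τ^[i] x + τ^[i] y := by
  induction i with
  | zero => rfl
  | succ i ih =>
    rw [Function.iterate_succ_apply', Function.iterate_succ_apply', Function.iterate_succ_apply',
      ih, map_add]

theorem iter_one (τ : K ≃ₐ[k] K) (i : ℕ) : τ^[i] 1 = 1 := by
  induction i with
  | zero => rfl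
  | succ i ih => rw [Function.iterate_succ_apply', ih, map_one]

theorem iter_zero (τ : K ≃ₐ[k] K) (i : ℕ) : τ^[i] 0 = 0 := by
  induction i with
  | zero => rfl
  | succ i ih => rw [Function.iterate_succ_apply', ih, map_zero]

theorem iter_inv (τ : K ≃ₐ[k] K) (i : ℕ) (x : K) : τ^[i] x⁻¹ = (τ^[i] x)⁻¹ := by
  induction i with
  | zero => rfl
  | succ i ih => rw [Function.iterate_succ_apply', Function.iterate_succ_apply', ih, map_inv₀]

theorem iter_div (τ : K ≃ₐ[k] K) (i : ℕ) (x y : K) : τ^[i] (x / y) = τ^[i] x / τ^[i] y := by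
  rw [div_eq_mul_inv, iter_mul, iter_inv, ← div_eq_mul_inv]

theorem iter_alg (τ : K ≃ₐ[k] K) (i : ℕ) (c : k) :
    τ^[i] (algebraMap k K c) = algebraMap k K c := by
  induction i with
  | zero => rfl
  | succ i ih => rw [Function.iterate_succ_apply', ih, AlgEquiv.commutes]

theorem iter_prod (τ : K ≃ₐ[k] K) (i : ℕ) {m : ℕ} (f : Fin (m + 1) → K) (a : Fin (m + 1) → ℕ) :
    τ^[i] (∏ j, f j ^ a j) = ∏ j, (τ^[i] (f j)) ^ a j := by
  induction i with
  | zero => rfl
  | succ i ih =>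
    rw [Function.iterate_succ_apply', ih, map_prod]
    refine Finset.prod_congr rfl fun j _ => ?_
    rw [map_pow, Function.iterate_succ_apply']

theorem iter_inj (τ : K ≃ₐ[k] K) (i : ℕ) {x : K} (hx : x ≠ 0) : τ^[i] x ≠ 0 := by
  intro h
  induction i with
  | zero => exact hx h
  | succ i ih =>
    rw [Function.iterate_succ_apply'] at h
    exact ih ((map_eq_zero_iff τ τ.injective).1 h)

/-- the monomials of degree `d` form a finite set -/
theorem MN_finite {m : ℕ} (z : Fin (m + 1) → K) (d : ℕ) : (MN z d).Finite := by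
  have h1 : (Set.pi Set.univ fun _ : Fin (m + 1) => Set.Iic d).Finite :=
    Set.Finite.pi fun _ => Set.finite_Iic d
  refine (h1.image fun a => ∏ i, z i ^ a i).subset ?_
  rintro x ⟨a, ha, rfl⟩
  refine ⟨a, fun i _ => ?_, rfl⟩
  rw [Set.mem_Iic, ← ha]
  exact Finset.single_le_sum (fun _ _ => Nat.zero_le _) (Finset.mem_univ i)

end

section

variable {k O L K : Type} [CommRing k] [CommRing O]
  [Field L] [Field K] [Algebra k O] [Algebra O K] [Algebra k K]
  [IsScalarTower k O K] [Algebra L K]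

/-- monomials in an intermediate field -/
theorem mn_mem (τ : K ≃ₐ[k] K) {m : ℕ} {z : Fin (m + 1) → K} (hz0 : z 0 ≠ 0) (i : ℕ)
    (E : IntermediateField L K) (hE : ∀ j, τ^[i] (z j / z 0) ∈ E) {d : ℕ} {x : K}
    (hx : x ∈ MN z d) : τ^[i] (x / z 0 ^ d) ∈ E := by
  obtain ⟨a, ha, rfl⟩ := hx
  have h1 : (∏ j, z j ^ a j) / z 0 ^ d = ∏ j, (z j / z 0) ^ a j := by
    rw [← ha, ← Finset.prod_pow_eq_pow_sum, ← Finset.prod_div_distrib]
    refine Finset.prod_congr rfl fun j _ => ?_
    rw [div_pow]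
  rw [h1, iter_prod]
  exact E.prod_mem fun j _ => pow_mem (hE j) _

theorem fs_mem (lk : ∀ c : k, ∃ x : L, algebraMap L K x = algebraMap k K c)
    (τ : K ≃ₐ[k] K) {m : ℕ} {z : Fin (m + 1) → K} (hz0 : z 0 ≠ 0) (i : ℕ)
    (E : IntermediateField L K) (hE : ∀ j, τ^[i] (z j / z 0) ∈ E) {d : ℕ} {F : K}
    (hF : F ∈ FS k z d) : τ^[i] (F / z 0 ^ d) ∈ E := by
  unfold FS at hF
  induction hF using Submodule.span_induction with
  | mem x hx => exact mn_mem τ hz0 i E hE hx
  | zero =>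
    rw [zero_div, iter_zero]
    exact E.zero_mem
  | add x y _ _ hx hy =>
    rw [add_div, iter_add]
    exact E.add_mem hx hy
  | smul c x _ hx =>
    rw [Algebra.smul_def, mul_div_assoc, iter_mul, iter_alg]
    obtain ⟨y, hy⟩ := lk c
    rw [← hy]
    exact E.mul_mem (E.algebraMap_mem y) hx

/-- an intermediate field as an algebra over the localized base -/
def toSub (s : k) (lOL : ∀ o : OL O (K := K) s, ∃ x : L, algebraMap L K x = (o : K))
    (E : IntermediateField L K) : Subalgebra (OL O (K := K) s) K where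
  carrier := {x | x ∈ E}
  mul_mem' := fun ha hb => E.mul_mem ha hb
  add_mem' := fun ha hb => E.add_mem ha hb
  algebraMap_mem' := fun o => by
    obtain ⟨x, hx⟩ := lOL o
    show algebraMap (OL O (K := K) s) K o ∈ E
    have h1 : algebraMap (OL O (K := K) s) K o = (o : K) := rfl
    rw [h1, ← hx]
    exact E.algebraMap_mem x

theorem af_mem (lk : ∀ c : k, ∃ x : L, algebraMap L K x = algebraMap k K c) (s : k)
    (lOL : ∀ o : OL O (K := K) s, ∃ x : L, algebraMap L K x = (o : K))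
    (τ : K ≃ₐ[k] K) {m : ℕ} {z : Fin (m + 1) → K} (hz0 : z 0 ≠ 0) (i : ℕ)
    (E : IntermediateField L K) (hE : ∀ j, τ^[i] (z j / z 0) ∈ E) {d : ℕ} {F : K}
    (hF : F ∈ FS k z d) :
    AF (OL O (K := K) s) (fun j => τ^[i] (z j)) d (τ^[i] F) ≤ toSub s lOL E := by
  unfold AF
  rw [Algebra.adjoin_le_iff]
  rintro y ⟨x, ⟨a, ha, rfl⟩, rfl⟩
  show _ ∈ E
  rw [← iter_prod τ i z a, ← iter_div]
  have h1 := mn_mem τ hz0 i E hE (⟨a, ha, rfl⟩ : ∏ j, z j ^ a j ∈ MN z d)
  have h2 := fs_mem lk τ hz0 i E hE hF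
  have h3 : (∏ j, z j ^ a j) / F = ((∏ j, z j ^ a j) / z 0 ^ d) / (F / z 0 ^ d) :=
    (div_div_div_cancel_right₀ (pow_ne_zero d hz0) _ _).symm
  rw [h3, iter_div]
  exact E.div_mem h1 h2

end

theorem t_GCH : S_WCHART → S_STEP → S_LDG → S_SMAF → S_REGAF → S_GCH := by
  intro hW hS hLD hSM hRG k O L Y K _ _ _ _ _ _ _ _ _ _ _ _ _ _ _ ι p τ t m z hH s hDD tb 𝔓 l hs
    hWS d F hd hF hF0
  have hsK : algebraMap k K s ≠ 0 := fun h => hs (hH.injk (by rw [h, map_zero]))
  have hz0 := hH.z0 0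
  -- constants
  have lk : ∀ c : k, ∃ x : L, algebraMap L K x = algebraMap k K c := by
    intro c
    rw [IsScalarTower.algebraMap_apply k O K]
    exact hH.lo _
  have lOL : ∀ o : OL O (K := K) s, ∃ x : L, algebraMap L K x = (o : K) := by
    rintro ⟨x, n, y, h⟩
    obtain ⟨s', hs'⟩ := lk s
    obtain ⟨y', hy'⟩ := hH.lo y
    refine ⟨y' / s' ^ n, ?_⟩
    rw [map_div₀, map_pow, hy', hs', ← h]
    field_simp
  have hOK : ∀ o : O, algebraMap O K o ∈ OL O (K := K) s := fun o => ⟨0, o, by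
    rw [pow_zero, one_mul]⟩
  -- the algebras
  obtain ⟨A, hA⟩ : ∃ A : ℕ → Subalgebra (OL O (K := K) s) K, A = fun i =>
      AF (OL O (K := K) s) (fun j => τ^[i] (z j)) d (τ^[i] F) := ⟨_, rfl⟩
  have hA1 : ∀ i x, x ∈ A i → τ x ∈ A (i + 1) := by
    intro i x hx
    rw [hA] at hx ⊢
    simp only [] at hx ⊢
    unfold AF at hx
    induction hx using Algebra.adjoin_induction with
    | mem x hx =>
      obtain ⟨y, ⟨a, ha, rfl⟩, rfl⟩ := hx
      refine Algebra.subset_adjoin ⟨∏ j, (τ^[i + 1] (z j)) ^ a j, ⟨a, ha, rfl⟩, ?_⟩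
      rw [map_div₀, map_prod, Function.iterate_succ_apply']
      congr 1
      refine Finset.prod_congr rfl fun j _ => ?_
      rw [map_pow, Function.iterate_succ_apply']
    | algebraMap r =>
      rw [hWS.com]
      exact Subalgebra.algebraMap_mem _ _
    | add x y _ _ hx hy =>
      rw [map_add]
      exact Subalgebra.add_mem _ hx hy
    | mul x y _ _ hx hy =>
      rw [map_mul]
      exact Subalgebra.mul_mem _ hx hy
  have hA2 : ∀ i, A (i + p) = A i := by
    intro i
    have h1 : ∀ x, τ^[i + p] x = τ^[i] x := fun x => by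
      rw [Function.iterate_add_apply, hH.ord]
    rw [hA]
    simp only [h1]
  have hA3 : ∀ i, Algebra.FiniteType (OL O (K := K) s) (A i) := by
    intro i
    rw [hA, ← Subalgebra.fg_iff_finiteType]
    unfold AF
    rw [Subalgebra.fg_def]
    refine ⟨_, ?_, rfl⟩
    have h1 : {y : K | ∃ x ∈ MN (fun j => τ^[i] (z j)) d, y = x / τ^[i] F} =
        (fun x => x / τ^[i] F) '' MN (fun j => τ^[i] (z j)) d := by
      ext y
      constructor
      · rintro ⟨x, hx, rfl⟩
        exact ⟨x, hx, rfl⟩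
      · rintro ⟨x, hx, rfl⟩
        exact ⟨x, hx, rfl⟩
    rw [h1]
    exact (MN_finite _ d).image _
  have hA4 : ∀ s', 0 < s' → s' < p → (CC A s').LinearDisjoint (A s') := by
    intro s' h0 hsp
    refine hLD (OL O (K := K) s) L K Subtype.val_injective (fun o => lOL o) ?_ (CC A s') (A s')
      _ _ ?_ ?_ (hH.ld s' h0 hsp)
    · intro x
      obtain ⟨a, b, hb, hab⟩ := hH.lf x
      refine ⟨⟨_, hOK a⟩, ⟨_, hOK b⟩, ?_, hab⟩
      intro h
      apply hb
      apply hH.inj
      rw [map_zero]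
      exact congrArg Subtype.val h
    · have h1 : CC A s' ≤ toSub s lOL (IntermediateField.adjoin L {y : K | ∃ (i : ℕ)
          (j : Fin (m + 1)), i < s' ∧ y = τ^[i] (z j / z 0)}) := by
        unfold CC
        refine iSup_le fun i => ?_
        rw [hA]
        refine af_mem lk s lOL τ hz0 i _ (fun j => ?_) hF
        exact IntermediateField.subset_adjoin L _ ⟨i, j, i.2, rfl⟩
      exact fun a ha => h1 ha
    · have h1 : A s' ≤ toSub s lOL (IntermediateField.adjoin L {y : K | ∃ j : Fin (m + 1),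
          y = τ^[s'] (z j / z 0)}) := by
        rw [hA]
        refine af_mem lk s lOL τ hz0 s' _ (fun j => ?_) hF
        exact IntermediateField.subset_adjoin L _ ⟨j, rfl⟩
      exact fun a ha => h1 ha
  have hA5 : IsRegularRing (CC A p) := by
    rw [hA]
    exact hRG k O K s hsK p τ m z hH.z0 hH.rg d F hd hF hF0
  have key6 : ∀ (q : Ideal (AF (OL O (K := K) s) z d F)) [q.IsPrime],
      q.comap (algebraMap (OL O (K := K) s) (AF (OL O (K := K) s) z d F)) = 𝔓 →
      Algebra.IsSmoothAt (OL O (K := K) s) q := by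
    intro q hq hq𝔓
    refine hSM k O K hH.inj s hsK m z hH.z0 {x | ∃ o, x = t o - o} ?_ d F hd hF hF0 q ?_
    · intro j q' hq' h
      exact hH.sm j q' fun o => h _ ⟨o, rfl⟩
    · rintro e ⟨o, rfl⟩ h
      have h1 : tb ⟨algebraMap O K o, hOK o⟩ - ⟨algebraMap O K o, hOK o⟩ ∈ 𝔓 :=
        Ideal.pow_le_self (Nat.succ_ne_zero l) (hWS.dv _)
      rw [← hq𝔓, Ideal.mem_comap] at h1
      have h2 : (⟨algebraMap O K (t o - o), h⟩ : AF (OL O (K := K) s) z d F) =
          algebraMap (OL O (K := K) s) (AF (OL O (K := K) s) z d F)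
            (tb ⟨algebraMap O K o, hOK o⟩ - ⟨algebraMap O K o, hOK o⟩) := by
        apply Subtype.ext
        show algebraMap O K (t o - o) = ((tb ⟨algebraMap O K o, hOK o⟩ : OL O (K := K) s) : K) -
          algebraMap O K o
        rw [map_sub, ← hH.com]
        congr 1
        exact hWS.com ⟨algebraMap O K o, hOK o⟩
      exact h2 ▸ h1
  have hA6 : ∀ (q : Ideal (A 0)) [q.IsPrime], q.comap (algebraMap (OL O (K := K) s) (A 0)) = 𝔓 →
      Algebra.IsSmoothAt (OL O (K := K) s) q := by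
    subst hA
    intro q hq hq𝔓
    exact @key6 q hq hq𝔓
  obtain ⟨c1, c2, c3⟩ := hW k (OL O (K := K) s) K p τ tb 𝔓 l hWS A hA1 hA2 hA3 hA4 hA5 hA6
  unfold GR
  rw [hA] at c1 c2 c3
  refine hS k K Y ι p hH.pp τ hH.ord ?_ hH.fixK _ c1 c2 c3
  obtain ⟨o, ho⟩ := hH.nt
  refine ⟨algebraMap O K o, fun h => ho ?_⟩
  rw [hH.com] at h
  exact hH.inj h

end Pool.Agent.Y434.G
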